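import Mathlib

namespace Pool.Agent.Results.MP_a57927_nt.Sqrt

/-- the map n to phi(n) + 1 -/
def f (n : ℕ) : ℕ := n.totient + 1

/-- number of iterations until a prime appears -/
noncomputable def c (n : ℕ) : ℕ := sInf {i | (f^[i] n).Prime}

theorem tot (n : ℕ) (h2 : 2 ≤ n) (hn : ¬ n.Prime) : ∃ m, n ≤ m * m ∧ n.totient + m ≤ n := by
  have hp := Nat.minFac_prime (show n ≠ 1 by omega)
  have h1 := Nat.minFac_sq_le_self (by omega) hn
  obtain ⟨m, hm⟩ := Nat.minFac_dvd n
  generalize n.minFac = p at *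
  subst hm
  have p2 := hp.two_le
  have h3 : p ≤ m := by nlinarith
  refine ⟨m, by nlinarith, ?_⟩
  have h4 : (p * m).totient ≤ (p - 1) * m := by
    by_cases c : p ∣ m
    · rw [Nat.totient_mul_of_prime_of_dvd hp c]
      obtain ⟨r, rfl⟩ := c
      have hr : 0 < r := by
        rcases r with _ | r
        · omega
        · omega
      have h5 : ((p * r).totient * ∏ q ∈ (p * r).primeFactors, q) =
          p * r * ∏ q ∈ (p * r).primeFactors, (q - 1) := Nat.totient_mul_prod_primeFactors _
      have hmem : p ∈ (p * r).primeFactors :=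
        Nat.mem_primeFactors.2 ⟨hp, dvd_mul_right _ _, by positivity⟩
      rw [← Finset.mul_prod_erase _ _ hmem, ← Finset.mul_prod_erase _ _ hmem] at h5
      have h6 : ∏ q ∈ (p * r).primeFactors.erase p, (q - 1) ≤
          ∏ q ∈ (p * r).primeFactors.erase p, q :=
        Finset.prod_le_prod' fun q _ => Nat.sub_le _ _
      have h7 : 0 < ∏ q ∈ (p * r).primeFactors.erase p, q :=
        Finset.prod_pos fun q hq => (Nat.prime_of_mem_primeFactors (Finset.mem_of_mem_erase hq)).pos
      refine Nat.le_of_mul_le_mul_right ?_ h7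
      calc _ = (p * r).totient * (p * ∏ q ∈ (p * r).primeFactors.erase p, q) := by ring
        _ = _ := h5
        _ ≤ p * r * ((p - 1) * ∏ q ∈ (p * r).primeFactors.erase p, q) := by gcongr
        _ = _ := by ring
    · rw [Nat.totient_mul_of_prime_of_not_dvd hp c]
      exact Nat.mul_le_mul_left _ (Nat.totient_le _)
  obtain ⟨q, rfl⟩ : ∃ q, p = q + 1 := ⟨p - 1, by omega⟩
  simp only [Nat.add_sub_cancel] at h4
  nlinarith

theorem main (n : ℕ) : 2 ≤ n → ∃ i, i * i ≤ 16 * n ∧ (f^[i] n).Prime := by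
  induction n using Nat.strong_induction_on with
  | _ n ih =>
    intro h2
    by_cases hn : n.Prime
    · exact ⟨0, by omega, hn⟩
    obtain ⟨m, h3, h4⟩ := tot n h2 hn
    have h5 : 2 ≤ m := by nlinarith
    have h6 : 0 < n.totient := Nat.totient_pos.2 (by omega)
    obtain ⟨i, i1, i2⟩ := ih (f n) (by unfold f; omega) (by unfold f; omega)
    refine ⟨i + 1, ?_, i2⟩
    unfold f at i1
    have h7 : i ≤ 4 * m := by
      by_contra c
      nlinarith
    have h8 : i < 4 * m := by
      by_contra c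
      have : i = 4 * m := by omega
      subst this
      nlinarith
    nlinarith

theorem result (n : ℕ) (hn : 1 ≤ n) : (c n : ℝ) ≤ 4 * Real.sqrt n := by
  have key : ∃ i, i * i ≤ 16 * n ∧ (f^[i] n).Prime := by
    rcases Nat.lt_or_ge n 2 with h | h
    · obtain rfl : n = 1 := by omega
      exact ⟨1, by norm_num, by simp [f]; norm_num⟩
    · exact main n h
  obtain ⟨i, h1, h2⟩ := key
  have h3 : c n ≤ i := Nat.sInf_le h2
  have h4 : (c n : ℝ) ≤ i := by exact_mod_cast h3
  have h5 : (i : ℝ) * i ≤ 16 * n := by exact_mod_cast h1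
  have h6 := Real.mul_self_sqrt (show (0 : ℝ) ≤ n by positivity)
  have h7 := Real.sqrt_nonneg (n : ℝ)
  refine h4.trans ?_
  by_contra c
  nlinarith

end Pool.Agent.Results.MP_a57927_nt.Sqrt
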